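import Pool.Agent.N912.LB.Stm
import Pool.Agent.N31.LC.L6a

/-!
# Ideals attached to bases (B1), primitivity of the triples in the maximal order (B6)

Project LB (helper912).
-/

set_option autoImplicit false

namespace Pool.Agent.N301.LB

open Finset
open Pool.Agent.W78.GA
open Pool.Agent.N912.LC (Iv DL TP TP1)
open Pool.Agent.N912.ED.W78EG (pp)
open Pool.Agent.N912.LB (S_B1 S_B6 en i1)
open Pool.Agent.N31.LC (SL SL_data mem_SL maps Ph nm_ip)

/-! ### B1 -/

/-- the abstract computation -/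
theorem key {R : Type} [CommRing R] (x y θ θ' D E : R) (h1 : y * θ = D * x) (h2 : y * E = θ' * x)
    (hg : ∃ a b k : R, a * D + b * E + k * (θ + θ') = 1) :
    Ideal.span {y, x} * Ideal.span {E, θ} = Ideal.span {x} := by
  rw [Ideal.span_pair_mul_span_pair]
  apply le_antisymm
  · rw [Ideal.span_le]
    rintro z (rfl | rfl | rfl | rfl)
    · rw [h2]
      exact Ideal.mem_span_singleton.2 (dvd_mul_left _ _)
    · rw [h1]
      exact Ideal.mem_span_singleton.2 (dvd_mul_left _ _)
    · exact Ideal.mem_span_singleton.2 (dvd_mul_right _ _)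
    · exact Ideal.mem_span_singleton.2 (dvd_mul_right _ _)
  · rw [Ideal.span_singleton_le_iff_mem]
    obtain ⟨a, b, k, hk⟩ := hg
    have e : x = a * (y * θ) + b * (x * E) + k * (x * θ) + k * (y * E) := by
      calc x = x * (a * D + b * E + k * (θ + θ')) := by rw [hk, mul_one]
        _ = a * (D * x) + b * (x * E) + k * (x * θ) + k * (θ' * x) := by ring
        _ = _ := by rw [← h1, ← h2]
    obtain ⟨S, hS⟩ : ∃ S, S = Ideal.span {y * E, y * θ, x * E, x * θ} := ⟨_, rfl⟩
    have m1 : y * E ∈ S := by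
      rw [hS]
      exact Ideal.subset_span (by simp)
    have m2 : y * θ ∈ S := by
      rw [hS]
      exact Ideal.subset_span (by simp)
    have m3 : x * E ∈ S := by
      rw [hS]
      exact Ideal.subset_span (by simp)
    have m4 : x * θ ∈ S := by
      rw [hS]
      exact Ideal.subset_span (by simp)
    rw [← hS, e]
    exact S.add_mem (S.add_mem (S.add_mem (S.mul_mem_left _ m2) (S.mul_mem_left _ m3))
      (S.mul_mem_left _ m4)) (S.mul_mem_left _ m1)

variable {t c : ℤ}

/-- the ideal `{z : lat m r₀ z}` -/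
def II (t c : ℤ) (m : ℕ) (r₀ : ℤ) (h : (m : ℤ) ∣ r₀ ^ 2 - t * r₀ + c) : Ideal (Qd t c) where
  carrier := {z | lat m r₀ z}
  add_mem' := by
    intro x y hx hy
    have e : (x + y).re + r₀ * (x + y).im = (x.re + r₀ * x.im) + (y.re + r₀ * y.im) := by
      simp only [QuadraticAlgebra.re_add, QuadraticAlgebra.im_add]
      ring
    show (m : ℤ) ∣ _
    rw [e]
    exact dvd_add hx hy
  zero_mem' := by
    show (m : ℤ) ∣ _
    simp
  smul_mem' := by
    intro z x hx
    have e : (z • x).re + r₀ * (z • x).im = (z.re + r₀ * z.im) * (x.re + r₀ * x.im) -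
        (r₀ ^ 2 - t * r₀ + c) * (z.im * x.im) := by
      simp only [smul_eq_mul, QuadraticAlgebra.re_mul, QuadraticAlgebra.im_mul]
      ring
    show (m : ℤ) ∣ _
    rw [e]
    exact dvd_sub (Dvd.dvd.mul_left hx _) (Dvd.dvd.mul_right h _)

theorem mem_II {m : ℕ} {r₀ : ℤ} {h : (m : ℤ) ∣ r₀ ^ 2 - t * r₀ + c} {z : Qd t c} :
    z ∈ II t c m r₀ h ↔ lat m r₀ z := Iff.rfl

theorem dt_dvd {m : ℕ} {r₀ : ℤ} {z w : Qd t c} (hz : lat m r₀ z) (hw : lat m r₀ w) :
    (m : ℤ) ∣ dt z w := by
  have e : dt z w = (z.re + r₀ * z.im) * w.im - z.im * (w.re + r₀ * w.im) := by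
    unfold dt
    ring
  rw [e]
  exact dvd_sub (Dvd.dvd.mul_right hz _) (Dvd.dvd.mul_left hw _)

/-- generators over `ℤ` -/
theorem gen {m : ℕ} (hm : 1 ≤ m) {r₀ : ℤ} {v w : Qd t c} (hv : lat m r₀ v) (hw : lat m r₀ w)
    (hvw : dt v w = m) {z : Qd t c} (hz : lat m r₀ z) :
    ∃ a b : ℤ, z = (a : Qd t c) * v + (b : Qd t c) * w := by
  obtain ⟨a, ha⟩ := dt_dvd hz hw
  obtain ⟨b, hb⟩ := dt_dvd hv hz
  have hm0 : (m : ℤ) ≠ 0 := by
    have : (0 : ℤ) < m := by exact_mod_cast hm
    exact this.ne'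
  refine ⟨a, b, ?_⟩
  unfold dt at hvw ha hb
  have h1 : z.re = a * v.re + b * w.re := by
    apply mul_left_cancel₀ hm0
    linear_combination v.re * ha + w.re * hb - z.re * hvw
  have h2 : z.im = a * v.im + b * w.im := by
    apply mul_left_cancel₀ hm0
    linear_combination v.im * ha + w.im * hb - z.im * hvw
  ext
  · simp [h1]
  · simp [h2]

theorem II_eq {m : ℕ} (hm : 1 ≤ m) {r₀ : ℤ} (h : (m : ℤ) ∣ r₀ ^ 2 - t * r₀ + c) {v w : Qd t c}
    (hv : lat m r₀ v) (hw : lat m r₀ w) (hvw : dt v w = m) :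
    II t c m r₀ h = Ideal.span {v, w} := by
  apply le_antisymm
  · intro z hz
    obtain ⟨a, b, rfl⟩ := gen hm hv hw hvw (mem_II.1 hz)
    exact Ideal.mem_span_pair.2 ⟨_, _, rfl⟩
  · rw [Ideal.span_le]
    rintro z (rfl | rfl)
    · exact hv
    · exact hw

/-- the conjugate ideal -/
def IJ (t c : ℤ) (m : ℕ) (r₀ : ℤ) (h : (m : ℤ) ∣ r₀ ^ 2 - t * r₀ + c) : Ideal (Qd t c) where
  carrier := {z | lat m r₀ (star z)}
  add_mem' := by
    intro x y hx hy
    show lat m r₀ (star (x + y))
    rw [star_add]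
    exact (II t c m r₀ h).add_mem hx hy
  zero_mem' := by
    show lat m r₀ (star 0)
    rw [star_zero]
    exact (II t c m r₀ h).zero_mem
  smul_mem' := by
    intro z x hx
    show lat m r₀ (star (z * x))
    rw [star_mul, mul_comm]
    exact (II t c m r₀ h).mul_mem_left _ hx

theorem mem_IJ {m : ℕ} {r₀ : ℤ} {h : (m : ℤ) ∣ r₀ ^ 2 - t * r₀ + c} {z : Qd t c} :
    z ∈ IJ t c m r₀ h ↔ lat m r₀ (star z) := Iff.rfl

theorem IJ_eq {m : ℕ} (hm : 1 ≤ m) {r₀ : ℤ} (h : (m : ℤ) ∣ r₀ ^ 2 - t * r₀ + c) {v w : Qd t c}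
    (hv : lat m r₀ v) (hw : lat m r₀ w) (hvw : dt v w = m) :
    IJ t c m r₀ h = Ideal.span {star w, star v} := by
  apply le_antisymm
  · intro z hz
    obtain ⟨a, b, hab⟩ := gen hm hv hw hvw (mem_IJ.1 hz)
    have e : z = (b : Qd t c) * star w + (a : Qd t c) * star v := by
      have e1 := congrArg star hab
      rw [star_star, star_add, star_mul, star_mul, star_intCast, star_intCast] at e1
      rw [e1]
      ring
    rw [e]
    exact Ideal.mem_span_pair.2 ⟨_, _, rfl⟩
  · rw [Ideal.span_le]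
    rintro z (rfl | rfl)
    · show lat m r₀ (star (star w))
      rw [star_star]
      exact hw
    · show lat m r₀ (star (star v))
      rw [star_star]
      exact hv

theorem m_mem {m : ℕ} (r₀ : ℤ) : lat m r₀ ((m : ℕ) : Qd t c) := by
  show (m : ℤ) ∣ _
  simp

theorem b1 : S_B1 := by
  intro t c ht hD m r₀ hIv
  have hm := hIv.pos
  have hm0 : ((m : ℕ) : Qd t c) ≠ 0 := by
    intro h0
    have := congrArg QuadraticAlgebra.re h0
    simp only [QuadraticAlgebra.re_natCast, QuadraticAlgebra.re_zero] at this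
    have : m = 0 := by exact_mod_cast this
    omega
  refine ⟨II t c m r₀ hIv.dvd, IJ t c m r₀ hIv.dvd, ?_, ?_, ?_⟩
  · intro h0
    apply hm0
    rw [← Ideal.mem_bot, ← h0]
    exact m_mem r₀
  · intro h0
    apply hm0
    rw [← Ideal.mem_bot, ← h0, mem_IJ, star_natCast]
    exact m_mem r₀
  intro X e he hpp
  have hSL : e ∈ SL t c (m, r₀) X := by
    classical
    unfold SL
    rw [mem_filter]
    exact ⟨he, hpp⟩
  obtain ⟨d, e', n, h1, h2, h3, h4, h5⟩ := SL_data ht hD (x := (m, r₀)) hIv hSL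
  have hTP := maps ht hD (x := (m, r₀)) hIv hSL
  rw [h5] at hTP
  rw [mem_SL hD] at hSL
  obtain ⟨-, ⟨hv, hw, hvw⟩, -⟩ := hSL
  obtain ⟨v, w⟩ := e
  simp only at h1 h2 h3 hv hw hvw hpp
  have e1 : nm v / m = d := by rw [h1]; exact Nat.mul_div_cancel_left _ hm
  have e2 : nm w / m = e' := by rw [h2]; exact Nat.mul_div_cancel_left _ hm
  have hmz : (m : ℤ) ≠ 0 := by
    have : (0 : ℤ) < m := by exact_mod_cast hm
    exact this.ne'
  have e3 : (ip v w / m).toNat = n := by
    rw [h3, Int.mul_ediv_cancel_left _ hmz, Int.toNat_natCast]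
  simp only [e1, e2, e3]
  -- the gcd
  classical
  unfold TP1 TP at hTP
  rw [mem_filter, mem_filter] at hTP
  obtain ⟨⟨-, hde, h2n⟩, hprim⟩ := hTP
  simp only at hde h2n hprim
  have hgcd : ∃ a b k : ℤ, a * d + b * e' + k * (2 * n + t) = 1 := by
    obtain ⟨g, hg⟩ := (IsPrincipalIdealRing.principal
      (Ideal.span ({(d : ℤ), (e' : ℤ), 2 * (n : ℤ) + t} : Set ℤ))).principal
    have hmem : ∀ x ∈ ({(d : ℤ), (e' : ℤ), 2 * (n : ℤ) + t} : Set ℤ), g ∣ x := by
      intro x hx
      have h6 : x ∈ Ideal.span ({(d : ℤ), (e' : ℤ), 2 * (n : ℤ) + t} : Set ℤ) :=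
        Ideal.subset_span hx
      rw [hg] at h6
      exact Ideal.mem_span_singleton.1 h6
    have hu : IsUnit g := hprim g (hmem _ (by simp)) (hmem _ (by simp)) (hmem _ (by simp))
    have h1 : (1 : ℤ) ∈ Ideal.span ({(d : ℤ), (e' : ℤ), 2 * (n : ℤ) + t} : Set ℤ) := by
      rw [hg]
      exact Ideal.mem_span_singleton.2 hu.dvd
    obtain ⟨a, b, k, habk⟩ := Submodule.mem_span_triple.1 h1
    exact ⟨a, b, k, by simpa [smul_eq_mul] using habk⟩
  obtain ⟨a, b, k, habk⟩ := hgcd
  have hs : en t c n + star (en t c n) = ((2 * n + t : ℤ) : Qd t c) := by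
    ext
    · simp only [en, QuadraticAlgebra.re_add, QuadraticAlgebra.re_star, QuadraticAlgebra.re_intCast,
        Int.cast_id]
      ring
    · simp only [en, QuadraticAlgebra.im_add, QuadraticAlgebra.im_star, QuadraticAlgebra.im_intCast]
      ring
  have hgQ : (a : Qd t c) * (d : Qd t c) + (b : Qd t c) * (e' : Qd t c) +
      (k : Qd t c) * (en t c n + star (en t c n)) = 1 := by
    rw [hs]
    have := congrArg (Int.cast (R := Qd t c)) habk
    push_cast at this ⊢
    exact this
  have hnv : ip v v = m * d := by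
    rw [← nm_ip hD, h1]
    push_cast
    rfl
  have hnw : ip w w = m * e' := by
    rw [← nm_ip hD, h2]
    push_cast
    rfl
  have hip : ip v w = m * n := h3
  unfold dt at hvw
  unfold ip at hnv hnw hip
  have k1 : v * en t c n = (d : Qd t c) * w := by
    ext
    · simp only [en, QuadraticAlgebra.re_mul, QuadraticAlgebra.re_natCast,
        QuadraticAlgebra.im_natCast]
      apply mul_left_cancel₀ hmz
      linear_combination w.re * hnv - v.re * hip + c * v.im * hvw
    · simp only [en, QuadraticAlgebra.im_mul, QuadraticAlgebra.re_natCast,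
        QuadraticAlgebra.im_natCast]
      apply mul_left_cancel₀ hmz
      linear_combination w.im * hnv - v.im * hip - (v.re + t * v.im) * hvw
  have k2 : v * (e' : Qd t c) = star (en t c n) * w := by
    ext
    · simp only [en, QuadraticAlgebra.re_mul, QuadraticAlgebra.re_natCast,
        QuadraticAlgebra.im_natCast, QuadraticAlgebra.re_star, QuadraticAlgebra.im_star]
      apply mul_left_cancel₀ hmz
      linear_combination -v.re * hnw + w.re * hip + (t * w.re + c * w.im) * hvw
    · simp only [en, QuadraticAlgebra.im_mul, QuadraticAlgebra.re_natCast,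
        QuadraticAlgebra.im_natCast, QuadraticAlgebra.re_star, QuadraticAlgebra.im_star]
      apply mul_left_cancel₀ hmz
      linear_combination -v.im * hnw + w.im * hip - w.re * hvw
  constructor
  · rw [IJ_eq hm hIv.dvd hv hw (by unfold dt; exact hvw)]
    refine key (star v) (star w) (en t c n) (star (en t c n)) (e' : Qd t c) (d : Qd t c) ?_ ?_
      ⟨b, a, k, by rw [← hgQ]; ring⟩
    · have := congrArg star k2
      rw [star_mul, star_mul, star_star, star_natCast] at this
      rw [← this]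
    · have := congrArg star k1
      rw [star_mul, star_mul, star_natCast] at this
      rw [← this]
  · rw [II_eq hm hIv.dvd hv hw (by unfold dt; exact hvw)]
    exact key w v (en t c n) (star (en t c n)) (d : Qd t c) (e' : Qd t c) k1 k2 ⟨a, b, k, hgQ⟩

/-! ### B6 -/

theorem b6 : S_B6 := by
  classical
  intro t c ht hD hic X
  unfold TP1
  apply filter_true_of_mem
  intro y hy g hg1 hg2 hg3
  unfold TP at hy
  rw [mem_filter, mem_product, mem_product, mem_Icc, mem_Icc] at hy
  obtain ⟨⟨⟨hd1, -⟩, ⟨he1, -⟩, -⟩, hde, h2n⟩ := hy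
  obtain ⟨a, ha⟩ := hg1
  obtain ⟨b, hb⟩ := hg2
  obtain ⟨s, hs⟩ := hg3
  have hg0 : g ≠ 0 := by
    rintro rfl
    rw [zero_mul] at ha
    have : y.1 = 0 := by exact_mod_cast ha
    omega
  obtain ⟨θ, hθ⟩ : ∃ θ, θ = en t c y.2.2 := ⟨_, rfl⟩
  have hθ2 : θ * θ = ((g * s : ℤ) : Qd t c) * θ - ((g * a * (g * b) : ℤ) : Qd t c) := by
    rw [← hs, ← ha, ← hb, hθ]
    ext
    · simp only [en, QuadraticAlgebra.re_mul, QuadraticAlgebra.re_sub, QuadraticAlgebra.re_intCast,
        QuadraticAlgebra.im_intCast, Int.cast_id]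
      linear_combination hde
    · simp only [en, QuadraticAlgebra.im_mul, QuadraticAlgebra.im_sub, QuadraticAlgebra.re_intCast,
        QuadraticAlgebra.im_intCast, Int.cast_id]
      ring
  have hgn : ((g : ℤ) : Qd t c) ∈ nonZeroDivisors (Qd t c) := by
    rw [mem_nonZeroDivisors_iff_right]
    intro x hx
    have h1 := congrArg QuadraticAlgebra.re hx
    have h2 := congrArg QuadraticAlgebra.im hx
    simp only [QuadraticAlgebra.re_mul, QuadraticAlgebra.im_mul, QuadraticAlgebra.re_intCast,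
      QuadraticAlgebra.im_intCast, QuadraticAlgebra.re_zero, QuadraticAlgebra.im_zero, mul_zero,
      add_zero, zero_add, Int.cast_id] at h1 h2
    ext
    · rw [QuadraticAlgebra.re_zero]
      exact (mul_eq_zero.1 h1).resolve_right hg0
    · rw [QuadraticAlgebra.im_zero]
      exact (mul_eq_zero.1 h2).resolve_right hg0
  obtain ⟨z, hz⟩ : ∃ z : FractionRing (Qd t c), z * algebraMap (Qd t c) (FractionRing (Qd t c)) (g : Qd t c) =
      algebraMap (Qd t c) (FractionRing (Qd t c)) θ :=
    ⟨IsLocalization.mk' _ θ ⟨_, hgn⟩, IsLocalization.mk'_spec ..⟩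
  have hgu : IsUnit (algebraMap (Qd t c) (FractionRing (Qd t c)) (g : Qd t c)) :=
    IsLocalization.map_units (FractionRing (Qd t c)) (⟨_, hgn⟩ : nonZeroDivisors (Qd t c))
  have hint : IsIntegral (Qd t c) z := by
    refine ⟨Polynomial.X ^ 2 - Polynomial.C (s : Qd t c) * Polynomial.X +
      Polynomial.C ((a * b : ℤ) : Qd t c), ?_, ?_⟩
    · monicity!
    · simp only [Polynomial.eval₂_add, Polynomial.eval₂_sub, Polynomial.eval₂_mul,
        Polynomial.eval₂_pow, Polynomial.eval₂_X, Polynomial.eval₂_C]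
      have h1 := congrArg (algebraMap (Qd t c) (FractionRing (Qd t c))) hθ2
      rw [map_mul, map_sub, map_mul, ← hz] at h1
      apply (hgu.pow 2).mul_left_cancel
      rw [mul_zero]
      simp only [map_mul, map_intCast, Int.cast_mul] at h1 ⊢
      linear_combination h1
  obtain ⟨x, hx⟩ := IsIntegrallyClosed.algebraMap_eq_of_integral hint
  have hxg : x * (g : Qd t c) = θ := by
    apply IsFractionRing.injective (Qd t c) (FractionRing (Qd t c))
    rw [map_mul, hx, hz]
  have h3 := congrArg QuadraticAlgebra.im hxg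
  rw [hθ] at h3
  simp only [en, QuadraticAlgebra.im_mul, QuadraticAlgebra.re_intCast,
    QuadraticAlgebra.im_intCast, mul_zero, add_zero, zero_add, Int.cast_id] at h3
  exact IsUnit.of_mul_eq_one_right _ h3

end Pool.Agent.N301.LB
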